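import Mathlib
import Pool.Agent.H790R2.TipHalf

set_option autoImplicit false

/-!
# MP_2e7b1e_an: `Φ(α) = π` for every `α`

In the class `Σ_α` of the problem the direction `θ₀` of the sector is free. Under the normalisation
`f (-1) = ∞` the tip positions `φ_f`, `f ∈ Σ_α`, fill the whole open interval `(-π, π)`, for every
`α > 0`; hence `Φ(α) = π`, and the supremum is not attained.
-/

open Set Filter Topology Complex Metric
open Pool.Agent.H790R2.Tip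

namespace Pool.Agent.Results.MP_2e7b1e_an.SupIsPi

/-- `f ∈ Σ_α` with slit `γ`: `f ∈ S`, the omitted set is the piecewise analytic slit `γ` from the
finite point `γ 0` to `∞`, and for some real `θ₀` every `ω ≠ γ 0` of the slit satisfies
`arg (ω - γ 0) ∈ [θ₀, θ₀ + α π]` modulo `2π`. -/
def InSigma (α : ℝ) (f : ℂ → ℂ) (γ : ℝ → ℂ) : Prop :=
  IsSlitMap f γ ∧ ∃ θ₀ : ℝ, ∀ ω ∈ γ '' Ici 0, ω ≠ γ 0 →
    ∃ θ ∈ Icc θ₀ (θ₀ + α * Real.pi), ω - γ 0 = ‖ω - γ 0‖ * exp (θ * I)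

/-- The set of all tip positions `φ_f ∈ (-π, π)`, `f ∈ Σ_α`, `f (-1) = ∞`. -/
def tips (α : ℝ) : Set ℝ :=
  {φ | -Real.pi < φ ∧ φ < Real.pi ∧ ∃ (f : ℂ → ℂ) (γ : ℝ → ℂ), InSigma α f γ ∧
    HasTipAt f (γ 0) φ}

theorem result (α : ℝ) (h0 : 0 < α) (_h2 : α ≤ 2) :
    tips α = Ioo (-Real.pi) Real.pi ∧ IsLUB ((fun φ => |φ|) '' tips α) Real.pi ∧
      Real.pi ∉ (fun φ => |φ|) '' tips α := by
  have hpi := Real.pi_pos
  have htips : tips α = Ioo (-Real.pi) Real.pi := by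
    ext φ
    constructor
    · rintro ⟨h1, h2, -⟩
      exact ⟨h1, h2⟩
    · rintro ⟨hφ1, hφ2⟩
      obtain ⟨ψ, hψφ⟩ : ∃ ψ, ψ = φ / 2 := ⟨_, rfl⟩
      have hφψ : φ = 2 * ψ := by linarith
      have hψ : 0 < Real.cos ψ := Real.cos_pos_of_mem_Ioo ⟨by linarith, by linarith⟩
      refine ⟨hφ1, hφ2, hl ψ, γhl ψ, ⟨hl_isSlitMap hψ, -ψ, ?_⟩, by rw [hφψ]; exact hl_hasTipAt hψ⟩
      rintro ω ⟨t, ht, rfl⟩ -
      have ht' : 0 ≤ t := ht
      refine ⟨-ψ, ⟨le_rfl, by have := mul_pos h0 hpi; linarith⟩, ?_⟩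
      rw [γhl_sub, norm_mul, ee_norm, mul_one, norm_real, Real.norm_eq_abs, abs_of_nonneg ht']
      rfl
  have hnot : Real.pi ∉ (fun φ => |φ|) '' tips α := by
    rw [htips]
    rintro ⟨φ, ⟨h1, h2⟩, h3⟩
    have : |φ| < Real.pi := abs_lt.mpr ⟨h1, h2⟩
    exact absurd h3 (ne_of_lt this)
  refine ⟨htips, ⟨?_, ?_⟩, hnot⟩
  · rw [htips]
    rintro x ⟨φ, ⟨h1, h2⟩, rfl⟩
    exact (abs_lt.mpr ⟨h1, h2⟩).le
  · intro b hb
    by_contra hcon
    push Not at hcon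
    have hb0 : 0 ≤ b := by
      have : (fun φ => |φ|) 0 ∈ (fun φ : ℝ => |φ|) '' tips α := ⟨0, by rw [htips]; exact ⟨by linarith, hpi⟩, rfl⟩
      have := hb this
      simpa using this
    have hm : |(b + Real.pi) / 2| ∈ (fun φ : ℝ => |φ|) '' tips α :=
      ⟨(b + Real.pi) / 2, by rw [htips]; exact ⟨by linarith, by linarith⟩, rfl⟩
    have := hb hm
    rw [abs_of_nonneg (by linarith)] at this
    linarith

end Pool.Agent.Results.MP_2e7b1e_an.SupIsPi
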